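import Pool.Graph.R_seed8.Y444.TM.Fin
import Pool.Graph.R_pool_sql_team_39128cda.Lib.helper23_.Comb

/-!
The `Σ`-product version of the group of `MP_a4feb0_gt` (module `Y444.TM` of the library) is
Frechet-Urysohn and has an open subgroup in which all countable sets have compact closure.
-/

set_option autoImplicit false

open Filter Topology Set

namespace Pool.Agent.KS6_17.TM.Sigma

open Pool.Agent.Y444.TM Pool.Agent.Y444.TM.G

lemma nbD (d : D) : ∀ᶠ r in 𝓝 (0 : ℤ_[3]), r • d = 0 := by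
  obtain ⟨q, rfl⟩ := cls_surj d
  filter_upwards [((continuous_subtype_val.mul (continuous_const (y := q))).norm.tendsto'
    (0 : ℤ_[3]) 0 (by simp)).eventually (ge_mem_nhds one_pos)] with r hr
  rw [← map_smul, cls_eq_zero]
  exact hr

instance : Countable D := countable_univ_iff.1
  ((countable_iUnion fun k => (D_finite k).countable).mono fun x _ => mem_iUnion.2 (D_tors x))

/-- Convergence in `G`. -/
lemma tends {α : Type} {l : Filter α} {u : α → G} {x : G} (hv : ∀ᶠ i in l, (u i).v = x.v)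
    (hc : ∀ d : D, ∀ᶠ i in l, (u i).c • d = x.c • d)
    (hF : ∀ b z, ∀ᶠ i in l, (u i).F b z = x.F b z) : Tendsto u l (𝓝 x) := by
  intro U hU
  obtain ⟨P, hP⟩ := (mem_nhds_iff x U).1 hU
  have h1 := (Filter.eventually_all_finset P).2 fun p _ => hc p.2
  have h2 := (Filter.eventually_all_finset P).2 fun p _ => hF p.1 p.2
  rw [Filter.mem_map]
  filter_upwards [hv, h1, h2] with i a1 a2 a3
  refine hP _ fun p hp => (Th_eq_iff _ _ _).2 ⟨?_, a3 p hp⟩
  unfold G.act
  rw [a1, a2 p hp]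

lemma fu : FrechetUrysohnSpace G := by
  classical
  refine ⟨fun A x hx => ?_⟩
  have h1 : ∀ P : Finset (ℤ_[3] × D), ∃ a ∈ A, ∀ p ∈ P, Th a p = Th x p := by
    intro P
    have hU : {y : G | ∀ p ∈ P, Th y p = Th x p} ∈ 𝓝 x := (mem_nhds_iff x _).2 ⟨P, fun y hy => hy⟩
    obtain ⟨a, ha1, ha2⟩ := mem_closure_iff_nhds.1 hx _ hU
    exact ⟨a, ha2, ha1⟩
  choose a haA haP using h1
  obtain ⟨J, j1, j2, j3⟩ := Pool.Agent.Lib.helper23.close_off (Q := Unit)
    ((({0, 1} : Set ℤ_[3]) ∪ {b | x.F b ≠ 0}) ×ˢ (univ : Set D))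
    (((toFinite ({0, 1} : Set ℤ_[3])).countable.union x.hs).prod countable_univ)
    (fun F _ _ => {b | (a F).F b ≠ 0} ×ˢ univ)
    fun F _ _ => (a F).hs.prod countable_univ
  obtain ⟨j, rfl⟩ := j1.exists_eq_range ⟨(0, 0), j2 ⟨Or.inl (Or.inl rfl), trivial⟩⟩
  let E : ℕ → Finset (ℤ_[3] × D) := fun n => (Finset.range n).image j
  have hE : ∀ n, ((E n : Finset (ℤ_[3] × D)) : Set (ℤ_[3] × D)) ⊆ range j := fun n p hp => by
    obtain ⟨m, -, rfl⟩ := Finset.mem_image.1 (Finset.mem_coe.1 hp)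
    exact mem_range_self m
  have hev : ∀ p ∈ range j, ∀ᶠ n in atTop, p ∈ E n := by
    rintro _ ⟨m, rfl⟩
    filter_upwards [eventually_gt_atTop m] with n hn
    exact Finset.mem_image_of_mem _ (Finset.mem_range.2 hn)
  have hv : ∀ᶠ n in atTop, (a (E n)).v = x.v := by
    filter_upwards [hev (0, 0) (j2 ⟨Or.inl (Or.inl rfl), trivial⟩),
      hev (1, 0) (j2 ⟨Or.inl (Or.inr rfl), trivial⟩)] with n h0 h1
    have e0 := (Th_eq_iff _ _ _).1 (haP _ _ h0)
    have e1 := (Th_eq_iff _ _ _).1 (haP _ _ h1)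
    have f0 := e0.1
    have f1 := e1.1
    unfold G.act at f0 f1
    dsimp only at f0 f1
    rw [smul_zero, smul_zero, zero_add, zero_add, psi_apply, psi_apply] at f0 f1
    simp only [zero_smul, add_zero, one_smul] at f0 f1
    apply Prod.ext
    · exact f0
    · rw [f0] at f1
      exact add_left_cancel f1
  refine ⟨fun n => a (E n), fun n => haA _, tends hv (fun d => ?_) fun b z => ?_⟩
  · filter_upwards [hv, hev (0, d) (j2 ⟨Or.inl (Or.inl rfl), trivial⟩)] with n h1 h2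
    have f2 := ((Th_eq_iff _ _ _).1 (haP _ _ h2)).1
    unfold G.act at f2
    dsimp only at f2
    rw [h1] at f2
    exact add_right_cancel f2
  · by_cases hp : (b, z) ∈ range j
    · filter_upwards [hev _ hp] with n hn
      exact ((Th_eq_iff _ _ _).1 (haP _ _ hn)).2
    · refine Eventually.of_forall fun n => ?_
      have e1 : (a (E n)).F b = 0 := by
        by_contra hne
        exact hp (j3 (E n) (E n) () (hE n) (hE n) ⟨hne, trivial⟩)
      have e2 : x.F b = 0 := by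
        by_contra hne
        exact hp (j2 ⟨Or.inr hne, trivial⟩)
      rw [e1, e2]

/-- The open subgroup `{v = 0}`. -/
def U : Subgroup G where
  carrier := {g | g.v = 0}
  one_mem' := rfl
  mul_mem' := fun {a b} (ha : _ = _) (hb : _ = _) => by
    show (a * b).v = 0
    rw [mul_v, ha, hb, smul_zero, add_zero]
  inv_mem' := fun {a} (ha : _ = _) => by
    show (a⁻¹).v = 0
    rw [inv_v, ha, smul_zero, neg_zero]

lemma isOpen_U : IsOpen (U : Set G) := by
  classical
  refine Subgroup.isOpen_of_mem_nhds U (g := 1) ((mem_nhds_iff 1 _).2 ⟨{(0, 0), (1, 0)}, ?_⟩)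
  intro y hy
  have e0 := (Th_eq_iff _ _ _).1 (hy (0, 0) (by simp))
  have e1 := (Th_eq_iff _ _ _).1 (hy (1, 0) (by simp))
  have f0 := e0.1
  have f1 := e1.1
  unfold G.act at f0 f1
  dsimp only at f0 f1
  rw [smul_zero, smul_zero, zero_add, zero_add, psi_apply, psi_apply] at f0 f1
  simp only [zero_smul, add_zero, one_smul] at f0 f1
  show y.v = 0
  rw [show (0 : D × D) = (1 : G).v from rfl]
  apply Prod.ext
  · exact f0
  · rw [f0] at f1
    exact add_left_cancel f1

lemma cpt (J : Set ℤ_[3]) (hJ : J.Countable) :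
    IsCompact {g : G | g.v = 0 ∧ ∀ b ∉ J, g.F b = 0} := by
  classical
  rw [isCompact_iff_ultrafilter_le_nhds]
  intro 𝒰 h𝒰
  have hK : ∀ᶠ g : G in 𝒰, g.v = 0 ∧ ∀ b ∉ J, g.F b = 0 := le_principal_iff.1 h𝒰
  choose f hf using fun b z => 𝒰.eventually_exists_iff.1
    (Eventually.of_forall fun g : G => (⟨_, rfl⟩ : ∃ w, g.F b z = w))
  have hf0 : ∀ b ∉ J, f b = 0 := fun b hb => by
    funext z
    obtain ⟨g, h1, h2⟩ := ((hf b z).and hK).exists
    rw [← h1, h2.2 b hb]
  obtain ⟨r, -, hr⟩ := isCompact_univ.ultrafilter_le_nhds (𝒰.map fun g : G => g.c) (by simp)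
  have r1 (d : D) : ∀ᶠ g : G in 𝒰, g.c • d = r • d := by
    have h1 : Tendsto (fun g : G => ((g.c : ℤ_[3]) - (r : ℤ_[3]))) 𝒰 (𝓝 0) := by
      have h2 : Tendsto (fun g : G => (g.c : ℤ_[3])) 𝒰 (𝓝 (r : ℤ_[3])) :=
        (Units.continuous_val.tendsto r).comp hr
      simpa using h2.sub_const (r : ℤ_[3])
    filter_upwards [h1.eventually (nbD d)] with g hg
    exact sub_eq_zero.1 ((sub_smul _ _ _).symm.trans hg)
  refine ⟨⟨f, 0, r, fun b z s hs h3 => ?_, hJ.mono fun b hb => ?_⟩, ⟨rfl, hf0⟩, ?_⟩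
  · obtain ⟨g, h1, h2, h3'⟩ := ((hf b z).and ((hf b (z + s)).and (hf b (z + s + s)))).exists
    rw [← h1, ← h2, ← h3']
    exact g.hN b z s hs h3
  · by_contra hbJ
    exact hb (hf0 b hbJ)
  · exact tends (u := fun g : G => g) (hK.mono fun g hg => hg.1) r1 fun b z => hf b z

lemma omegaBdd (S : Set G) (hS : S ⊆ (U : Set G)) (hc : S.Countable) : IsCompact (closure S) := by
  have h1 : (⋃ g ∈ S, {b | g.F b ≠ 0}).Countable := hc.biUnion fun g _ => g.hs
  have h2 := cpt _ h1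
  refine h2.of_isClosed_subset isClosed_closure (closure_minimal ?_ h2.isClosed)
  intro g hg
  refine ⟨hS hg, fun b hb => ?_⟩
  by_contra hne
  exact hb (mem_iUnion₂.2 ⟨g, hg, hne⟩)

end Pool.Agent.KS6_17.TM.Sigma
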