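import Mathlib
import Pool.Graph.R_pool_sql_team_39128cda.H.MP_a4feb0_gt.C
import Pool.Graph.R_pool_sql_team_39128cda.Lib.helper23_.Comb

/-!
The direct sum version of the group of `MP_a4feb0_gt` (module `H.MP_a4feb0_gt.B` of the library) is
Frechet-Urysohn and sigma-compact.
-/

set_option autoImplicit false

namespace Pool.Agent.KS6_17.TM.Sum

open Set Filter Topology Function Pool.Agent.H.MP_a4feb0_gt A B

lemma sepG {x : G} (h : ∀ F, x ∈ Nb F) : x = 1 := by
  obtain ⟨h1, h2, h3⟩ := toP.1 (show Tendsto (fun _ : ℕ => x) ⊤ P from fun U ⟨F, hF⟩ =>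
    mem_map.2 (univ_mem' fun _ => hF (h F)))
  refine ex (fun μ y => (h3 μ y).exists.elim fun _ => id) (h1.exists.elim fun _ => id) ?_
  by_contra k
  obtain ⟨y, hy⟩ := cD (r := x.κ - 1) (fun e => k (Units.ext (sub_eq_zero.1 e))) c
  exact c0 (by rw [← hy, sub_smul, one_smul, sub_eq_zero]; exact (h2 y).exists.elim fun _ => id)

lemma solv : derivedSeries G 3 = ⊥ := by
  let S1 : Subgroup G :=
    { carrier := {g | g.κ = 1}
      one_mem' := rfl
      mul_mem' := fun {a b} (ha : _ = _) (hb : _ = _) => by simp [ha, hb]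
      inv_mem' := fun {a} (ha : _ = _) => by simp [ha] }
  let S2 : Subgroup G :=
    { carrier := {g | g.v = 0 ∧ g.κ = 1}
      one_mem' := ⟨rfl, rfl⟩
      mul_mem' := fun {a b} (ha : _ ∧ _) (hb : _ ∧ _) => by simp [ha, hb]
      inv_mem' := fun {a} (ha : _ ∧ _) => by simp [ha] }
  have h1 : derivedSeries G 1 ≤ S1 := Subgroup.commutator_le.2 fun x _ y _ =>
    show _ = _ by simp [commutatorElement_def]
  have h2 : derivedSeries G 2 ≤ S2 := Subgroup.commutator_le.2 fun x hx y hy =>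
    show _ ∧ _ by simp [commutatorElement_def, show x.κ = 1 from h1 hx, show y.κ = 1 from h1 hy]
  refine eq_bot_iff.2 (Subgroup.commutator_le.2 fun x hx y hy => ?_)
  rw [Subgroup.mem_bot, commutatorElement_eq_one_iff_mul_comm]
  obtain ⟨a1, a2⟩ := h2 hx
  obtain ⟨a3, a4⟩ := h2 hy
  exact ex (by simp [a1, a2, a3, a4, add_comm]) (by simp [a1, a3]) (mul_comm _ _)

section
variable (τ : TopologicalSpace G) (t1 : IsTopologicalGroup G) (t2 : 𝓝 (1 : G) = P)
include t1 t2

lemma tends {α : Type} {l : Filter α} {u : α → G} {x : G}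
    (h : Tendsto (fun i => x⁻¹ * u i) l P) : Tendsto u l (𝓝 x) := by
  rw [← t2] at h
  simpa using h.const_mul x

lemma t2sp : T2Space G := IsTopologicalGroup.t2Space_of_one_sep fun x hx => by
    obtain ⟨F, hF⟩ := not_forall.1 (mt sepG hx)
    exact ⟨_, t2 ▸ ⟨F, subset_rfl⟩, hF⟩

lemma cl (A : Set G) (x : G) : x ∈ closure A ↔ ∀ F, ∃ g ∈ A, x⁻¹ * g ∈ Nb F := by
    rw [mem_closure_iff_nhds, ← map_mul_left_nhds_one, t2]
    refine ⟨fun h F => ?_, fun h U ⟨F, hF⟩ => ?_⟩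
    · obtain ⟨g, h1, h2⟩ := h {g | x⁻¹ * g ∈ Nb F} ⟨F, fun g hg => by simpa using hg⟩
      exact ⟨g, h2, h1⟩
    · obtain ⟨g, h1, h2⟩ := h F
      exact ⟨g, by simpa using hF h2, h1⟩

lemma fu : FrechetUrysohnSpace G := by
  classical
  refine ⟨fun A x hx => ?_⟩
  choose γ h1 h2 using (cl τ t1 t2 A x).1 hx
  obtain ⟨J, j1, j2, j3⟩ := Pool.Agent.Lib.helper23.close_off (Q := Unit)
    (({0} : Set R) ×ˢ (univ : Set C)) ((countable_singleton _).prod countable_univ)
    (fun F _ _ => {μ | (x⁻¹ * γ F).a μ ≠ 0} ×ˢ univ)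
    fun F _ _ => (x⁻¹ * γ F).hf.countable.prod countable_univ
  obtain ⟨j, rfl⟩ := j1.exists_eq_range ⟨(0, 0), j2 ⟨rfl, trivial⟩⟩
  let E : ℕ → Finset (R × C) := fun n => (Finset.range n).image j
  have hE : ∀ n, ((E n : Finset (R × C)) : Set (R × C)) ⊆ range j := fun n p hp => by
    obtain ⟨m, -, rfl⟩ := Finset.mem_image.1 (Finset.mem_coe.1 hp)
    exact mem_range_self m
  have hev : ∀ p ∈ range j, ∀ᶠ n in atTop, p ∈ E n := by
    rintro _ ⟨m, rfl⟩
    filter_upwards [eventually_gt_atTop m] with n hn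
    exact Finset.mem_image_of_mem _ (Finset.mem_range.2 hn)
  refine ⟨fun n => γ (E n), fun n => h1 _, tends τ t1 t2 (toP.2 ⟨?_, fun y => ?_, fun μ y => ?_⟩)⟩
  · exact Eventually.of_forall fun n => (h2 _).1
  · filter_upwards [hev (0, y) (j2 ⟨rfl, trivial⟩)] with n hn
    exact ((h2 _).2 _ hn).1
  · by_cases hp : (μ, y) ∈ range j
    · filter_upwards [hev _ hp] with n hn
      exact ((h2 _).2 _ hn).2
    · refine Eventually.of_forall fun n => ?_
      by_contra hne
      exact hp (j3 (E n) (E n) () (hE n) (hE n) ⟨fun e => hne (congrFun e _), trivial⟩)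

lemma cpt (w : C × C) (n : ℕ) : IsCompact {g : G | g.v = w ∧ {μ | g.a μ ≠ 0}.ncard ≤ n} := by
  classical
  rw [isCompact_iff_ultrafilter_le_nhds]
  intro 𝒰 h𝒰
  have hK : ∀ᶠ g : G in 𝒰, g.v = w ∧ {μ | g.a μ ≠ 0}.ncard ≤ n := le_principal_iff.1 h𝒰
  choose b hb using fun μ x => 𝒰.eventually_exists_iff.1
    (Eventually.of_forall fun g : G => (⟨_, rfl⟩ : ∃ z, g.a μ x = z))
  have hr : Rel b := fun μ x => by
    obtain ⟨i, h1, h2, h3⟩ := ((hb μ x).and ((hb μ (x + c)).and (hb μ (x - c)))).exists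
    exact h1 ▸ h2 ▸ h3 ▸ i.ha μ x
  obtain ⟨r, -, hr'⟩ := isCompact_univ.ultrafilter_le_nhds (𝒰.map fun g : G => (g.κ : R)) (by simp)
  have r1 (x : C) : ∀ᶠ g : G in 𝒰, g.κ • x = r • x := by
    filter_upwards [(((continuous_sub_right r).tendsto' r 0 (sub_self r)).comp hr').eventually
      (nb x)] with g hg using sub_eq_zero.1 ((sub_smul _ _ _).symm.trans hg)
  have r2 : r • c = c := by
    obtain ⟨g, hg⟩ := (r1 c).exists
    exact hg ▸ g.hκ
  have hfin : ∀ S : Finset R, (∀ μ ∈ S, b μ ≠ 0) → S.card ≤ n := by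
    intro S hS
    have h1 : ∀ μ ∈ S, ∀ᶠ g : G in 𝒰, g.a μ ≠ 0 := by
      intro μ hμ
      obtain ⟨x, hx⟩ := Function.ne_iff.1 (hS μ hμ)
      filter_upwards [hb μ x] with g hg h0
      exact hx (by rw [← hg, h0])
    obtain ⟨g, hg, -, hg2⟩ := (((Filter.eventually_all_finset S).2 h1).and hK).exists
    have : (S : Set R).ncard ≤ {μ | g.a μ ≠ 0}.ncard := ncard_le_ncard (fun μ hμ => hg μ hμ) g.hf
    rw [ncard_coe_finset] at this
    exact this.trans hg2
  have hf : {μ | b μ ≠ 0}.Finite := by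
    by_contra hinf
    obtain ⟨S, hS, hcard⟩ := Set.Infinite.exists_subset_card_eq hinf (n + 1)
    have := hfin S fun μ hμ => hS hμ
    omega
  refine ⟨⟨b, w, (un r2).unit, hf, hr, r2⟩, ⟨rfl, ?_⟩, ?_⟩
  · rw [ncard_eq_toFinset_card _ hf]
    exact hfin _ fun μ hμ => by simpa using hμ
  · refine tends τ t1 t2 (u := fun g : G => g) (toP.2 ⟨?_, fun x => ?_, fun μ x => ?_⟩)
    · filter_upwards [hK] with g hg
      simp [hg.1]
    · filter_upwards [r1 x] with g hg
      simp only [mκ, iκ, mul_smul, hg]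
      exact inv_smul_eq_iff.2 rfl
    · filter_upwards [hb μ x, hK, r1 x] with g h1 h2 h3
      simp only [ma, ia, h1, h2.1, h3, smul_add]
      rw [add_sub_cancel_right, show (un r2).unit⁻¹ • r • x = x from inv_smul_eq_iff.2 rfl]
      exact CharTwo.add_self_eq_zero _

lemma sigma : SigmaCompactSpace G := by
  have hcov : (⋃ p : (C × C) × ℕ, {g : G | g.v = p.1 ∧ {μ | g.a μ ≠ 0}.ncard ≤ p.2}) = univ :=
    eq_univ_of_forall fun g => mem_iUnion.2 ⟨(g.v, _), rfl, le_rfl⟩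
  exact SigmaCompactSpace.of_countable (range fun p : (C × C) × ℕ =>
    {g : G | g.v = p.1 ∧ {μ | g.a μ ≠ 0}.ncard ≤ p.2}) (countable_range _)
    (forall_mem_range.2 fun p => cpt τ t1 t2 p.1 p.2) (by rw [sUnion_range]; exact hcov)

lemma nonmet : ¬ TopologicalSpace.MetrizableSpace G := by
  classical
  intro _
  obtain ⟨U, hU⟩ := (𝓝 (1 : G)).exists_antitone_basis
  choose F hF using fun n => (t2 ▸ hU.mem n : U n ∈ P)
  haveI := unc
  obtain ⟨μ, hμ⟩ : ∃ μ, μ ∉ ⋃ n, Prod.fst '' (F n : Set (R × C)) := by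
    by_contra! h
    exact not_countable_univ ((countable_iUnion fun n =>
      ((F n).finite_toSet.image _).countable).mono fun μ _ => h μ)
  have c1 : c + c = -c := by
    rw [← add_eq_zero_iff_eq_neg, ← c3, show (3 : R) = 1 + 1 + 1 by norm_num]
    simp [add_smul]
  have hb : Rel fun _ y => (if y = c then 1 else 0) + if y = -c then 1 else 0 := fun _ y => by
    simp only [add_eq_right, sub_eq_iff_eq_add, c1, neg_add_cancel, ← eq_sub_iff_add_eq,
      show -c - c = c by rw [← c1]; simpa using neg_eq_iff_eq_neg.2 c1]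
    split_ifs <;> decide
  have := congrArg (fun g => g.a μ c) (sepG (x := res hb {μ}) fun E => by
    obtain ⟨n, hn⟩ := hU.mem_iff.1 (t2 ▸ ⟨E, subset_rfl⟩ : Nb E ∈ 𝓝 1)
    refine hn (hF n ⟨rfl, fun p hp => ⟨one_smul _ _, ?_⟩⟩)
    simp [res, show p.1 ≠ μ from fun e => hμ (mem_iUnion.2 ⟨n, p, hp, e⟩)])
  simp [res, show c ≠ -c from fun e => c0 (by simpa [← e] using c1)] at this

lemma totmin (N : Subgroup G) [N.Normal] (σ : TopologicalSpace (G ⧸ N))
    (a1 : @IsTopologicalGroup (G ⧸ N) σ _) (a2 : @T2Space (G ⧸ N) σ)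
    (a3 : QuotientGroup.instTopologicalSpace N ≤ σ) : σ = QuotientGroup.instTopologicalSpace N := by
  have h1 := (QuotientGroup.nhds_eq N 1).symm
  rw [t2] at h1
  have h2 := _root_.nhds_mono (a := 1) a3
  exact IsTopologicalGroup.ext a1 (QuotientGroup.instIsTopologicalGroup N) (le_antisymm
    ((@C.opn _ _ (QuotientGroup.mk' N) σ a1 a2 (h1.le.trans h2)
      (QuotientGroup.mk'_surjective N)).trans h1.le) h2)

end

end Pool.Agent.KS6_17.TM.Sum
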